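import Pool.Agent.H90.LC.Targets

/-!
# Row TM: the number of the large primes for given m
-/

set_option autoImplicit false

namespace Pool.Agent.H37.LCL

open Finset Pool.Agent.H44.MS Pool.Agent.H90.LC

lemma bpart (z y n : ℕ) (hn : 0 < n) (hz : z ≤ y) (hE : Ev y n) :
    ∃ b : ℕ, 0 < b ∧ (∀ p : ℕ, p.Prime → p ∣ b → p % 4 = 3) ∧ b ^ 2 ∣ n ∧
      Good 0 z (n / b ^ 2) := by
  classical
  set T : Finset ℕ := (Icc 1 z).filter (fun p => p.Prime ∧ p % 4 = 3) with hT
  have hTp : ∀ p ∈ T, p.Prime ∧ p % 4 = 3 ∧ p ≤ z := by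
    intro p hp
    rw [hT, mem_filter, mem_Icc] at hp
    exact ⟨hp.2.1, hp.2.2, hp.1.2⟩
  set b : ℕ := ∏ p ∈ T, p ^ (n.factorization p / 2) with hb
  have hbpos : 0 < b := by
    apply Finset.prod_pos
    intro p hp
    exact pow_pos (hTp p hp).1.pos _
  have hb2 : b ^ 2 = ∏ p ∈ T, p ^ n.factorization p := by
    rw [hb, ← Finset.prod_pow]
    apply Finset.prod_congr rfl
    intro p hp
    rw [← pow_mul]
    congr 1
    have := hE p (hTp p hp).1 (hTp p hp).2.1 ((hTp p hp).2.2.trans hz)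
    exact Nat.div_mul_cancel this.two_dvd
  have hdvd : b ^ 2 ∣ n := by
    rw [hb2]
    apply Finset.prod_dvd_of_isRelPrime
    · intro p hp q hq hpq
      show IsRelPrime (p ^ n.factorization p) (q ^ n.factorization q)
      rw [← Nat.coprime_iff_isRelPrime]
      exact Nat.Coprime.pow _ _ ((Nat.coprime_primes (hTp p hp).1 (hTp q hq).1).2 hpq)
    · intro p _
      exact Nat.ordProj_dvd n p
  refine ⟨b, hbpos, ?_, hdvd, ?_⟩
  · intro p hp hpb
    rw [hb] at hpb
    obtain ⟨q, hq, hpq⟩ := (Prime.dvd_finsetProd_iff hp.prime _).1 hpb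
    have h1 : p ∣ q := hp.dvd_of_dvd_pow hpq
    have h2 : p = q := (Nat.prime_dvd_prime_iff_eq hp (hTp q hq).1).1 h1
    rw [h2]
    exact (hTp q hq).2.1
  · intro p hp hp3 _ hpz hpd
    have hpT : p ∈ T := by
      rw [hT, mem_filter, mem_Icc]
      exact ⟨⟨hp.one_lt.le, hpz⟩, hp, hp3⟩
    have h1 : p * b ^ 2 ∣ n := by
      obtain ⟨k, hk⟩ := hpd
      obtain ⟨l, hl⟩ := hdvd
      have hb2pos : 0 < b ^ 2 := pow_pos hbpos 2
      rw [hl, Nat.mul_div_cancel_left _ hb2pos] at hk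
      rw [hl, hk]
      exact ⟨k, by ring⟩
    have h2 : p ^ n.factorization p ∣ b ^ 2 := by
      rw [hb2]
      exact Finset.dvd_prod_of_mem (fun p => p ^ n.factorization p) hpT
    have h3 : p ^ (n.factorization p + 1) ∣ n := by
      rw [pow_succ, mul_comm]
      exact (Nat.mul_dvd_mul_left p h2).trans h1
    exact Nat.pow_succ_factorization_not_dvd hn.ne' hp h3

lemma class_card (S : Finset ℕ) (X d : ℕ) (hS : ∀ t ∈ S, t ≤ X)
    (hd : ∀ s ∈ S, ∀ t ∈ S, s ≤ t → d ∣ t - s) : (S.card : ℝ) ≤ (X : ℝ) / d + 1 := by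
  rcases Nat.eq_zero_or_pos d with h0 | h0
  · subst h0
    have h1 : S.card ≤ 1 := by
      rw [Finset.card_le_one]
      intro a ha b hb
      rcases le_total a b with h | h
      · have := hd a ha b hb h
        rw [zero_dvd_iff] at this
        omega
      · have := hd b hb a ha h
        rw [zero_dvd_iff] at this
        omega
    have : (S.card : ℝ) ≤ 1 := by exact_mod_cast h1
    simpa using this
  · have h1 : S.card ≤ (range (X / d + 1)).card := by
      apply Finset.card_le_card_of_injOn (fun t => t / d)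
      · intro t ht
        simp only [coe_range, Set.mem_Iio]
        have := Nat.div_le_div_right (c := d) (hS t ht)
        omega
      · intro s hs t ht hst
        simp only at hst
        rcases le_total s t with h | h
        · obtain ⟨k, hk⟩ := hd s hs t ht h
          have : t = s + d * k := by omega
          rw [this, Nat.add_mul_div_left _ _ h0] at hst
          have hk0 : k = 0 := by omega
          rw [this, hk0]
          simp
        · obtain ⟨k, hk⟩ := hd t ht s hs h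
          have : s = t + d * k := by omega
          rw [this, Nat.add_mul_div_left _ _ h0] at hst
          have hk0 : k = 0 := by omega
          rw [this, hk0]
          simp
    rw [card_range] at h1
    have h2 : (S.card : ℝ) ≤ ((X / d : ℕ) : ℝ) + 1 := by exact_mod_cast h1
    have h3 : ((X / d : ℕ) : ℝ) ≤ (X : ℝ) / d := Nat.cast_div_le
    linarith

/-- The decomposition of the count. -/
lemma decomp (z y X m b0 : ℕ) (hz : z ≤ y) (hy : 2 ≤ y) (hm : 0 < m) :
    (TM y X m : ℝ) ≤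
      (∑ b ∈ (Icc 1 b0).filter (fun b => ∀ p ∈ b.primeFactors, p % 4 = 3), (NB z X m b : ℝ)) +
      ∑ b ∈ Ioc b0 (Nat.sqrt (X * m)), ((X : ℝ) / (b : ℝ) ^ 2 + 1) := by
  classical
  set Q : Finset ℕ := (Icc 1 b0).filter (fun b => ∀ p ∈ b.primeFactors, p % 4 = 3) with hQ
  set R : Finset ℕ := (Ioc b0 (Nat.sqrt (X * m))).filter (fun b => Nat.Coprime b m) with hR
  set S : Finset ℕ := (Icc 1 X).filter (fun t => t.Prime ∧ y < t ∧ Ev y (t * m - 2)) with hS
  set U : ℕ → Finset ℕ := fun b => (Icc 1 X).filter (fun t => z < t ∧ Rough z t ∧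
    b ^ 2 ∣ t * m - 2 ∧ Good 0 z ((t * m - 2) / b ^ 2)) with hU
  set V : ℕ → Finset ℕ := fun b => (Icc 1 X).filter (fun t => 2 < t ∧ b ^ 2 ∣ t * m - 2) with hV
  have hsub : S ⊆ Q.biUnion U ∪ R.biUnion V := by
    intro t ht
    rw [hS, mem_filter, mem_Icc] at ht
    obtain ⟨⟨h1, h2⟩, htp, hyt, hE⟩ := ht
    have htm : 3 ≤ t * m := by nlinarith
    have hn : 0 < t * m - 2 := by omega
    obtain ⟨b, hb0, hb3, hbd, hbG⟩ := bpart z y (t * m - 2) hn hz hE
    rw [mem_union, mem_biUnion, mem_biUnion]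
    by_cases hb : b ≤ b0
    · left
      refine ⟨b, ?_, ?_⟩
      · rw [hQ, mem_filter, mem_Icc]
        refine ⟨⟨hb0, hb⟩, ?_⟩
        intro p hp
        exact hb3 p (Nat.prime_of_mem_primeFactors hp) (Nat.dvd_of_mem_primeFactors hp)
      · rw [hU]
        simp only [mem_filter, mem_Icc]
        refine ⟨⟨h1, h2⟩, by omega, ?_, hbd, hbG⟩
        intro p hp hpt
        have : p = t := (Nat.prime_dvd_prime_iff_eq hp htp).1 hpt
        omega
    · right
      refine ⟨b, ?_, ?_⟩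
      · rw [hR, mem_filter, mem_Ioc]
        refine ⟨⟨by omega, ?_⟩, ?_⟩
        · rw [Nat.le_sqrt']
          have h3 := Nat.le_of_dvd hn hbd
          have h4 : t * m ≤ X * m := Nat.mul_le_mul_right m h2
          omega
        · rw [Nat.coprime_iff_gcd_eq_one]
          by_contra hg
          obtain ⟨p, hp, hpg⟩ := Nat.exists_prime_and_dvd hg
          have hpb : p ∣ b := hpg.trans (Nat.gcd_dvd_left _ _)
          have hpm : p ∣ m := hpg.trans (Nat.gcd_dvd_right _ _)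
          have hpn : p ∣ t * m - 2 := (hpb.trans (dvd_pow_self b two_ne_zero)).trans hbd
          have hptm : p ∣ t * m := hpm.mul_left t
          have hp2 : p ∣ 2 := by
            have h5 : p ∣ t * m - (t * m - 2) := Nat.dvd_sub hptm hpn
            have h6 : t * m - (t * m - 2) = 2 := by omega
            rwa [h6] at h5
          have h7 := hb3 p hp hpb
          have h8 : p = 2 := (Nat.prime_dvd_prime_iff_eq hp Nat.prime_two).1 hp2
          rw [h8] at h7
          exact absurd h7 (by norm_num)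
      · rw [hV]
        simp only [mem_filter, mem_Icc]
        exact ⟨⟨h1, h2⟩, by omega, hbd⟩
  have h1 : TM y X m ≤ ∑ b ∈ Q, NB z X m b + ∑ b ∈ R, (V b).card := by
    have e1 : TM y X m = S.card := by
      rw [hS]
      unfold TM
      congr
    have e2 : ∀ b : ℕ, NB z X m b = (U b).card := by
      intro b
      rw [hU]
      unfold NB
      congr
    rw [e1]
    calc S.card ≤ (Q.biUnion U ∪ R.biUnion V).card := card_le_card hsub
      _ ≤ (Q.biUnion U).card + (R.biUnion V).card := card_union_le _ _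
      _ ≤ ∑ b ∈ Q, (U b).card + ∑ b ∈ R, (V b).card := add_le_add card_biUnion_le card_biUnion_le
      _ = ∑ b ∈ Q, NB z X m b + ∑ b ∈ R, (V b).card := by
        rw [Finset.sum_congr rfl (fun b _ => e2 b)]
  have h2 : ∀ b ∈ R, ((V b).card : ℝ) ≤ (X : ℝ) / (b : ℝ) ^ 2 + 1 := by
    intro b hb
    rw [hR, mem_filter, mem_Ioc] at hb
    have h3 := class_card (V b) X (b ^ 2) (by
      intro t ht
      rw [hV] at ht
      simp only [mem_filter, mem_Icc] at ht
      exact ht.1.2) (by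
      intro s hs t ht hst
      rw [hV] at hs ht
      simp only [mem_filter, mem_Icc] at hs ht
      have hs2 : 3 ≤ s * m := by nlinarith [hs.2.1]
      have h4 : b ^ 2 ∣ (t * m - 2) - (s * m - 2) := Nat.dvd_sub ht.2.2 hs.2.2
      have h5 : s * m ≤ t * m := Nat.mul_le_mul_right m hst
      have h6 : (t * m - 2) - (s * m - 2) = (t - s) * m := by
        rw [Nat.sub_mul]
        omega
      rw [h6] at h4
      exact (Nat.Coprime.pow_left 2 hb.2).dvd_of_dvd_mul_right h4)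
    simpa using h3
  calc (TM y X m : ℝ) ≤ ((∑ b ∈ Q, NB z X m b + ∑ b ∈ R, (V b).card : ℕ) : ℝ) := by
        exact_mod_cast h1
    _ = ∑ b ∈ Q, (NB z X m b : ℝ) + ∑ b ∈ R, ((V b).card : ℝ) := by
        push_cast
        rfl
    _ ≤ ∑ b ∈ Q, (NB z X m b : ℝ) + ∑ b ∈ R, ((X : ℝ) / (b : ℝ) ^ 2 + 1) := by
        gcongr with b hb
        exact h2 b hb
    _ ≤ ∑ b ∈ Q, (NB z X m b : ℝ) +
          ∑ b ∈ Ioc b0 (Nat.sqrt (X * m)), ((X : ℝ) / (b : ℝ) ^ 2 + 1) := by
        gcongr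
        exact filter_subset _ _

lemma log_sq_le (k : ℕ) (hk : 0 < k) (y : ℝ) (hy : 1 ≤ y) :
    (Real.log y) ^ 2 ≤ (2 * k) ^ 2 * y ^ (1 / (k : ℝ)) := by
  have hk' : (0 : ℝ) < k := by exact_mod_cast hk
  have h0 : 0 < y := by linarith
  have h1 : Real.log y ≤ 2 * k * y ^ (1 / (2 * (k : ℝ))) := by
    have h2 := Real.add_one_le_exp (Real.log y / (2 * k))
    have h3 : Real.exp (Real.log y / (2 * k)) = y ^ (1 / (2 * (k : ℝ))) := by
      rw [Real.rpow_def_of_pos h0]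
      congr 1
      ring
    rw [h3] at h2
    have h4 : Real.log y / (2 * k) ≤ y ^ (1 / (2 * (k : ℝ))) := by linarith
    rw [div_le_iff₀ (by positivity)] at h4
    linarith
  have h5 : 0 ≤ Real.log y := Real.log_nonneg hy
  calc (Real.log y) ^ 2 ≤ (2 * k * y ^ (1 / (2 * (k : ℝ)))) ^ 2 := by gcongr
    _ = (2 * k) ^ 2 * (y ^ (1 / (2 * (k : ℝ)))) ^ 2 := by ring
    _ = (2 * k) ^ 2 * y ^ (1 / (k : ℝ)) := by
      congr 1
      rw [← Real.rpow_natCast, ← Real.rpow_mul h0.le]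
      congr 1
      push_cast
      field_simp

lemma sum_inv_sq_le (a n : ℕ) (ha : 0 < a) :
    ∑ b ∈ Ioc a n, 1 / (b : ℝ) ^ 2 ≤ 1 / (a : ℝ) := by
  rcases le_or_gt a n with h | h
  · have key : ∀ n : ℕ, a ≤ n → ∑ b ∈ Ioc a n, 1 / (b : ℝ) ^ 2 ≤ 1 / (a : ℝ) - 1 / (n : ℝ) := by
      intro n hn
      induction n, hn using Nat.le_induction with
      | base => simp
      | succ n hn ih =>
        rw [Finset.sum_Ioc_succ_top hn]
        have hn0 : (0 : ℝ) < n := by exact_mod_cast (lt_of_lt_of_le ha hn)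
        have h1 : 1 / (((n + 1 : ℕ) : ℝ)) ^ 2 ≤ 1 / (n : ℝ) - 1 / ((n + 1 : ℕ) : ℝ) := by
          push_cast
          rw [div_sub_div _ _ hn0.ne' (by positivity), div_le_div_iff₀ (by positivity) (by positivity)]
          nlinarith
        linarith
    have := key n h
    have h2 : (0 : ℝ) ≤ 1 / (n : ℝ) := by positivity
    linarith
  · rw [Finset.Ioc_eq_empty_of_le h.le]
    simp

/-- Row TM. -/
theorem pf_TM (hTMB : T_TMB) (hHP : T_HP) : T_TM := by
  classical
  obtain ⟨C1, hC1, A, hA⟩ := hTMB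
  obtain ⟨hp1, -, -, C2, hC2, hC2s⟩ := hHP
  set K : ℕ := 16 * (A + 1) with hK
  have hKpos : 1 ≤ K := by omega
  have hKr : (1 : ℝ) ≤ K := by exact_mod_cast hKpos
  refine ⟨C1 * (C2 + 2) * (K * K) + 1104, by positivity, max 3 (2 ^ (8 * A + 8)), ?_⟩
  intro y X m hy hm hyX hXm
  have hy3 : 3 ≤ y := le_trans (le_max_left _ _) hy
  have hyA : 2 ^ (8 * A + 8) ≤ y := le_trans (le_max_right _ _) hy
  -- the number z
  set z : ℕ := Nat.nthRoot (8 * A + 8) y with hz
  have hz1 : z ^ (8 * A + 8) ≤ y := by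
    rw [hz]
    exact Nat.pow_nthRoot_le (Or.inl (by omega))
  have hz2 : y < (z + 1) ^ (8 * A + 8) := by
    rw [hz]
    exact Nat.lt_pow_nthRoot_add_one (by omega) y
  have hz3 : 2 ≤ z := by
    by_contra h
    have h1 : z + 1 ≤ 2 := by omega
    have h2 : (z + 1) ^ (8 * A + 8) ≤ 2 ^ (8 * A + 8) := Nat.pow_le_pow_left h1 _
    omega
  have hzy : z ≤ y := le_trans (Nat.le_self_pow (by omega) z) hz1
  have hzK : y ≤ z ^ K := by
    have h1 : z + 1 ≤ z ^ 2 := by nlinarith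
    have h2 : (z + 1) ^ (8 * A + 8) ≤ (z ^ 2) ^ (8 * A + 8) := Nat.pow_le_pow_left h1 _
    have h3 : (z ^ 2) ^ (8 * A + 8) = z ^ K := by
      rw [← pow_mul]
      congr 1
      omega
    omega
  set b0 : ℕ := z ^ (A + 1) with hb0
  have hb1 : 1 ≤ b0 := Nat.one_le_pow _ _ (by omega)
  have hb8 : b0 ^ 8 ≤ y := by
    rw [hb0, ← pow_mul]
    have : (A + 1) * 8 = 8 * A + 8 := by ring
    rw [this]
    exact hz1
  have hb16 : y ≤ b0 ^ 16 := by
    rw [hb0, ← pow_mul]
    have : (A + 1) * 16 = K := by omega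
    rw [this]
    exact hzK
  have hzA : z ^ A ≤ b0 := Nat.pow_le_pow_right (by omega) (by omega)
  -- real quantities
  set L : ℝ := Real.log z with hL
  set l : ℝ := Real.log y with hl
  have hyr : (3 : ℝ) ≤ y := by exact_mod_cast hy3
  have hzr : (2 : ℝ) ≤ z := by exact_mod_cast hz3
  have hLpos : 0 < L := Real.log_pos (by linarith)
  have hl1 : 1 ≤ l := by
    rw [hl, Real.le_log_iff_exp_le (by linarith)]
    exact le_trans Real.exp_one_lt_d9.le (by linarith)
  have hlL : l ≤ K * L := by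
    rw [hl, hL, ← Real.log_pow]
    apply Real.log_le_log (by linarith)
    exact_mod_cast hzK
  have hXr : (y : ℝ) ≤ X := by exact_mod_cast hyX
  have hX0 : (0 : ℝ) < X := by linarith
  have hhm : 1 ≤ hp m := (hp1 m hm).1
  have hb1r : (1 : ℝ) ≤ b0 := by exact_mod_cast hb1
  have hLL : 0 < L * √L := by positivity
  have hll : 0 < l * √l := by
    have : 0 < l := by linarith
    positivity
  have hlK : l * √l ≤ (K * K) * (L * √L) := by
    have h1 : √l ≤ K * √L := by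
      rw [Real.sqrt_le_left (by positivity)]
      rw [mul_pow, Real.sq_sqrt hLpos.le]
      nlinarith
    calc l * √l ≤ (K * L) * (K * √L) := by gcongr
      _ = (K * K) * (L * √L) := by ring
  -- the first sum
  set Q : Finset ℕ := (Icc 1 b0).filter (fun b => ∀ p ∈ b.primeFactors, p % 4 = 3) with hQ
  have hsum1 : ∑ b ∈ Q, (NB z X m b : ℝ) ≤
      C1 * (hp m / (L * √L)) * (C2 * X + 2 * (b0 : ℝ) ^ 2) + (b0 : ℝ) ^ 2 := by
    have h1 : ∀ b ∈ Q, (NB z X m b : ℝ) ≤
        C1 * (hp m / (L * √L)) * (X * (hp b / (b : ℝ) ^ 2) + hp b) + b0 := by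
      intro b hb
      rw [hQ, mem_filter, mem_Icc] at hb
      have h2 := hA z X m b hz3 hm hb.1.1 (by
        intro p hpp hpb
        exact hb.2 p (Nat.mem_primeFactors.2 ⟨hpp, hpb, by omega⟩))
      have h3 : (z : ℝ) ^ A ≤ b0 := by exact_mod_cast hzA
      have h4 : C1 * ((X : ℝ) / (b : ℝ) ^ 2 + 1) * (hp b * hp m) / (Real.log z * √(Real.log z)) =
          C1 * (hp m / (L * √L)) * (X * (hp b / (b : ℝ) ^ 2) + hp b) := by
        rw [← hL]
        ring
      rw [h4] at h2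
      linarith
    have h5 : ∀ b ∈ Icc 1 b0, (0 : ℝ) ≤
        C1 * (hp m / (L * √L)) * (X * (hp b / (b : ℝ) ^ 2) + hp b) + b0 := by
      intro b hb
      rw [mem_Icc] at hb
      have := (hp1 b hb.1).1
      have h6 : 0 ≤ hp b := by linarith
      have h7 : 0 ≤ hp m := by linarith
      positivity
    calc ∑ b ∈ Q, (NB z X m b : ℝ)
        ≤ ∑ b ∈ Q, (C1 * (hp m / (L * √L)) * (X * (hp b / (b : ℝ) ^ 2) + hp b) + b0) :=
          Finset.sum_le_sum h1
      _ ≤ ∑ b ∈ Icc 1 b0, (C1 * (hp m / (L * √L)) * (X * (hp b / (b : ℝ) ^ 2) + hp b) + b0) :=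
          Finset.sum_le_sum_of_subset_of_nonneg (filter_subset _ _) (fun b hb _ => h5 b hb)
      _ = C1 * (hp m / (L * √L)) * (X * ∑ b ∈ Icc 1 b0, hp b / (b : ℝ) ^ 2 +
            ∑ b ∈ Icc 1 b0, hp b) + (b0 : ℝ) ^ 2 := by
          rw [Finset.sum_add_distrib, ← Finset.mul_sum, Finset.sum_add_distrib, ← Finset.mul_sum,
            Finset.sum_const, Nat.card_Icc, nsmul_eq_mul]
          push_cast
          rw [pow_two]
      _ ≤ C1 * (hp m / (L * √L)) * (C2 * X + 2 * (b0 : ℝ) ^ 2) + (b0 : ℝ) ^ 2 := by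
          have h8 : ∑ b ∈ Icc 1 b0, hp b ≤ 2 * (b0 : ℝ) ^ 2 := by
            calc ∑ b ∈ Icc 1 b0, hp b ≤ ∑ b ∈ Icc 1 b0, 2 * (b0 : ℝ) := by
                  apply Finset.sum_le_sum
                  intro b hb
                  rw [mem_Icc] at hb
                  have h9 := (hp1 b hb.1).2
                  have hbr : (1 : ℝ) ≤ b := by exact_mod_cast hb.1
                  have hbr2 : (b : ℝ) ≤ b0 := by exact_mod_cast hb.2
                  have h10 : √(b : ℝ) ≤ b := by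
                    rw [Real.sqrt_le_left (by linarith)]
                    nlinarith
                  linarith
              _ = 2 * (b0 : ℝ) ^ 2 := by
                  rw [Finset.sum_const, Nat.card_Icc, nsmul_eq_mul, Nat.add_sub_cancel]
                  ring
          have h11 : (X : ℝ) * ∑ b ∈ Icc 1 b0, hp b / (b : ℝ) ^ 2 ≤ C2 * X := by
            rw [mul_comm]
            exact mul_le_mul_of_nonneg_right (hC2s b0) hX0.le
          have h12 : 0 ≤ C1 * (hp m / (L * √L)) := by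
            have h7 : 0 ≤ hp m := by linarith
            positivity
          gcongr
  -- the second sum
  set B1 : ℕ := Nat.sqrt (X * m) with hB1
  have hsum2 : ∑ b ∈ Ioc b0 B1, ((X : ℝ) / (b : ℝ) ^ 2 + 1) ≤ (X : ℝ) / (b0 : ℝ) + (B1 : ℝ) := by
    rw [Finset.sum_add_distrib]
    have h1 : ∑ b ∈ Ioc b0 B1, (X : ℝ) / (b : ℝ) ^ 2 ≤ (X : ℝ) / (b0 : ℝ) := by
      have h2 : ∑ b ∈ Ioc b0 B1, (X : ℝ) / (b : ℝ) ^ 2 =
          X * ∑ b ∈ Ioc b0 B1, 1 / (b : ℝ) ^ 2 := by
        rw [Finset.mul_sum]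
        apply Finset.sum_congr rfl
        intro b _
        ring
      rw [h2]
      calc (X : ℝ) * ∑ b ∈ Ioc b0 B1, 1 / (b : ℝ) ^ 2 ≤ X * (1 / (b0 : ℝ)) := by
            exact mul_le_mul_of_nonneg_left (sum_inv_sq_le b0 B1 hb1) hX0.le
        _ = (X : ℝ) / (b0 : ℝ) := by ring
    have h3 : ∑ b ∈ Ioc b0 B1, (1 : ℝ) ≤ B1 := by
      rw [Finset.sum_const, Nat.card_Ioc, nsmul_eq_mul, mul_one]
      exact_mod_cast Nat.sub_le _ _
    linarith
  -- the small terms
  have hl2 : 0 < l ^ 2 := by positivity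
  have hy0 : (0 : ℝ) < y := by linarith
  have hE1 : (b0 : ℝ) ^ 2 * l ^ 2 ≤ 16 * X := by
    have h1 := log_sq_le 2 (by norm_num) y (by linarith)
    have h2 : (b0 : ℝ) ^ 2 ≤ (y : ℝ) ^ (1 / ((2 : ℕ) : ℝ)) := by
      have h3 : ((b0 : ℝ) ^ 2) ^ 2 ≤ y := by
        have h4 : (b0 ^ 2) ^ 2 ≤ b0 ^ 8 := by
          rw [← pow_mul]
          exact Nat.pow_le_pow_right (by omega) (by norm_num)
        exact_mod_cast h4.trans hb8
      have h5 : ((2 : ℕ) : ℝ) = 2 := by norm_num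
      rw [h5, ← Real.sqrt_eq_rpow]
      exact Real.le_sqrt_of_sq_le h3
    have h6 : (y : ℝ) ^ (1 / ((2 : ℕ) : ℝ)) * (y : ℝ) ^ (1 / ((2 : ℕ) : ℝ)) = y := by
      rw [← Real.rpow_add hy0]
      norm_num
    have h7 : 0 ≤ (y : ℝ) ^ (1 / ((2 : ℕ) : ℝ)) := by positivity
    calc (b0 : ℝ) ^ 2 * l ^ 2 ≤
          (y : ℝ) ^ (1 / ((2 : ℕ) : ℝ)) * ((2 * (2 : ℕ)) ^ 2 * (y : ℝ) ^ (1 / ((2 : ℕ) : ℝ))) := by
          gcongr
      _ = (2 * (2 : ℕ)) ^ 2 *
          ((y : ℝ) ^ (1 / ((2 : ℕ) : ℝ)) * (y : ℝ) ^ (1 / ((2 : ℕ) : ℝ))) := by ring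
      _ = 16 * y := by rw [h6]; norm_num
      _ ≤ 16 * X := by linarith
  have hE2 : (X : ℝ) / (b0 : ℝ) * l ^ 2 ≤ 1024 * (X : ℝ) := by
    have h1 := log_sq_le 16 (by norm_num) y (by linarith)
    have h2 : (y : ℝ) ^ (1 / ((16 : ℕ) : ℝ)) ≤ b0 := by
      have h3 : (y : ℝ) ≤ (b0 : ℝ) ^ 16 := by exact_mod_cast hb16
      calc (y : ℝ) ^ (1 / ((16 : ℕ) : ℝ)) ≤ ((b0 : ℝ) ^ 16) ^ (1 / ((16 : ℕ) : ℝ)) := by
            gcongr
        _ = b0 := by
            rw [← Real.rpow_natCast, ← Real.rpow_mul (by linarith)]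
            norm_num
    calc (X : ℝ) / (b0 : ℝ) * l ^ 2 ≤ (X : ℝ) / (b0 : ℝ) * ((2 * (16 : ℕ)) ^ 2 * (b0 : ℝ)) := by
          have : l ^ 2 ≤ (2 * (16 : ℕ)) ^ 2 * (b0 : ℝ) := by
            refine h1.trans ?_
            gcongr
          gcongr
      _ = 1024 * (X : ℝ) := by
          field_simp
          norm_num
  have hE3 : (B1 : ℝ) * l ^ 2 ≤ 64 * X := by
    have h1 := log_sq_le 4 (by norm_num) y (by linarith)
    have h2 : (B1 : ℝ) ≤ (y : ℝ) ^ ((3 : ℝ) / 4) := by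
      have h3 : B1 ^ 4 ≤ y ^ 3 := by
        have h4 : B1 ^ 2 ≤ X * m := Nat.sqrt_le' _
        calc B1 ^ 4 = (B1 ^ 2) ^ 2 := by ring
          _ ≤ (X * m) ^ 2 := Nat.pow_le_pow_left h4 2
          _ ≤ y ^ 3 := hXm
      have h5 : (B1 : ℝ) ^ 4 ≤ (y : ℝ) ^ 3 := by exact_mod_cast h3
      have h6 : ((B1 : ℝ) ^ 4) ^ ((1 : ℝ) / 4) ≤ ((y : ℝ) ^ 3) ^ ((1 : ℝ) / 4) := by
        gcongr
      rw [← Real.rpow_natCast, ← Real.rpow_mul (by positivity), ← Real.rpow_natCast,
        ← Real.rpow_mul hy0.le] at h6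
      norm_num at h6
      exact h6
    have h7 : (y : ℝ) ^ ((3 : ℝ) / 4) * (y : ℝ) ^ (1 / ((4 : ℕ) : ℝ)) = y := by
      rw [← Real.rpow_add hy0]
      norm_num
    calc (B1 : ℝ) * l ^ 2 ≤
          (y : ℝ) ^ ((3 : ℝ) / 4) * ((2 * (4 : ℕ)) ^ 2 * (y : ℝ) ^ (1 / ((4 : ℕ) : ℝ))) := by
          gcongr
      _ = (2 * (4 : ℕ)) ^ 2 *
          ((y : ℝ) ^ ((3 : ℝ) / 4) * (y : ℝ) ^ (1 / ((4 : ℕ) : ℝ))) := by ring
      _ = 64 * y := by rw [h7]; norm_num
      _ ≤ 64 * X := by linarith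
  have hsmall : (b0 : ℝ) ^ 2 + (X : ℝ) / (b0 : ℝ) + (B1 : ℝ) ≤ 1104 * (X * hp m / (l * √l)) := by
    have h1 : ((b0 : ℝ) ^ 2 + (X : ℝ) / (b0 : ℝ) + (B1 : ℝ)) * l ^ 2 ≤ 1104 * X := by
      rw [add_mul, add_mul]
      linarith
    have h2 : (b0 : ℝ) ^ 2 + (X : ℝ) / (b0 : ℝ) + (B1 : ℝ) ≤ 1104 * X / l ^ 2 := by
      rw [le_div_iff₀ hl2]
      exact h1
    refine h2.trans ?_
    rw [mul_div_assoc]
    apply mul_le_mul_of_nonneg_left _ (by norm_num)
    have h3 : √l ≤ l := by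
      rw [Real.sqrt_le_left (by linarith)]
      nlinarith
    have h4 : l * √l ≤ l ^ 2 := by
      rw [pow_two]
      gcongr
    calc (X : ℝ) / l ^ 2 ≤ X / (l * √l) := by gcongr
      _ = X * 1 / (l * √l) := by ring
      _ ≤ X * hp m / (l * √l) := by gcongr
  have hb2X : (b0 : ℝ) ^ 2 ≤ X := by
    have h4 : b0 ^ 2 ≤ b0 ^ 8 := Nat.pow_le_pow_right (by omega) (by norm_num)
    exact_mod_cast (h4.trans hb8).trans hyX
  have hmain : C1 * (hp m / (L * √L)) * (C2 * X + 2 * (b0 : ℝ) ^ 2) ≤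
      C1 * (C2 + 2) * (K * K) * (X * hp m / (l * √l)) := by
    have h1 : C2 * X + 2 * (b0 : ℝ) ^ 2 ≤ (C2 + 2) * X := by linarith
    have h2 : hp m / (L * √L) ≤ (K * K) * (hp m / (l * √l)) := by
      rw [← mul_div_assoc, div_le_div_iff₀ hLL hll]
      calc hp m * (l * √l) ≤ hp m * ((K * K) * (L * √L)) := by gcongr
        _ = (K * K) * hp m * (L * √L) := by ring
    have h3 : 0 ≤ hp m / (L * √L) := by
      have h7 : 0 ≤ hp m := by linarith
      positivity
    calc C1 * (hp m / (L * √L)) * (C2 * X + 2 * (b0 : ℝ) ^ 2)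
        ≤ C1 * ((K * K) * (hp m / (l * √l))) * ((C2 + 2) * X) := by gcongr
      _ = C1 * (C2 + 2) * (K * K) * (X * hp m / (l * √l)) := by ring
  have hdec := decomp z y X m b0 hzy (by omega) hm
  rw [← hQ, ← hB1] at hdec
  calc (TM y X m : ℝ) ≤ C1 * (C2 + 2) * (K * K) * (X * hp m / (l * √l)) +
        1104 * (X * hp m / (l * √l)) := by linarith
    _ = (C1 * (C2 + 2) * (K * K) + 1104) * X * hp m / (l * √l) := by ring

end Pool.Agent.H37.LCL
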