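import Pool.Agent.H90.LC.Targets

/-!
# Row TMB: the numbers `t` with a given square
-/

set_option autoImplicit false

namespace Pool.Agent.H37.LCL

open Finset Pool.Agent.H44.MS Pool.Agent.H90.LC

/-- A linear congruence modulo a prime has exactly one solution. -/
lemma lin_sol (p : ℕ) (hp : p.Prime) (c : ℤ) (d : ℕ) (hd : ¬ p ∣ d) :
    ∃ r0 : ℕ, r0 < p ∧ ∀ r : ℕ, r < p → ((p : ℤ) ∣ c + d * r ↔ r = r0) := by
  have : Fact p.Prime := ⟨hp⟩
  have hd0 : (d : ZMod p) ≠ 0 := by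
    rw [Ne, ZMod.natCast_eq_zero_iff]
    exact hd
  refine ⟨(-(c : ZMod p) * (d : ZMod p)⁻¹).val, ZMod.val_lt _, ?_⟩
  intro r hr
  rw [← ZMod.intCast_zmod_eq_zero_iff_dvd]
  push_cast
  constructor
  · intro h
    have h1 : (r : ZMod p) = -(c : ZMod p) * (d : ZMod p)⁻¹ := by
      field_simp
      linear_combination h
    rw [← h1, ZMod.val_natCast, Nat.mod_eq_of_lt hr]
  · intro h
    have h1 : (r : ZMod p) = -(c : ZMod p) * (d : ZMod p)⁻¹ := by
      rw [h, ZMod.natCast_zmod_val]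
    rw [h1]
    field_simp
    ring

lemma pos_hp (hHP : T_HP) (j : ℕ) (hj : 0 < j) : 0 < hp j :=
  lt_of_lt_of_le one_pos (hHP.1 j hj).1

/-- Row TMB. -/
theorem pf_TMB (hSIV : T_SIV) (hWZ : T_WZ) (hHP : T_HP) : T_TMB := by
  classical
  obtain ⟨A, hA⟩ := hSIV
  obtain ⟨C, hC, hCW⟩ := hWZ
  refine ⟨2 * C, by positivity, A, ?_⟩
  intro z X m b hz hm hb hb3
  have hzr : (2 : ℝ) ≤ z := by exact_mod_cast hz
  have hLpos : 0 < Real.log z := Real.log_pos (by linarith)
  have hhb := pos_hp hHP b hb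
  have hhm := pos_hp hHP m hm
  have hbr : (0 : ℝ) < b := by exact_mod_cast hb
  set S : Finset ℕ := (Icc 1 X).filter (fun t => z < t ∧ Rough z t ∧ b ^ 2 ∣ t * m - 2 ∧
    Good 0 z ((t * m - 2) / b ^ 2)) with hS
  have hNB : NB z X m b = S.card := by
    rw [hS]
    unfold NB
    congr
  rw [hNB]
  rcases S.eq_empty_or_nonempty with hSe | ⟨t0, ht0⟩
  · rw [hSe, card_empty, Nat.cast_zero]
    positivity
  have hSm : ∀ t ∈ S, 1 ≤ t ∧ t ≤ X ∧ z < t ∧ Rough z t ∧ b ^ 2 ∣ t * m - 2 ∧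
      Good 0 z ((t * m - 2) / b ^ 2) ∧ 3 ≤ t * m := by
    intro t ht
    rw [hS, mem_filter, mem_Icc] at ht
    refine ⟨ht.1.1, ht.1.2, ht.2.1, ht.2.2.1, ht.2.2.2.1, ht.2.2.2.2, ?_⟩
    nlinarith [ht.2.1]
  have hcop : Nat.Coprime b m := by
    rw [Nat.coprime_iff_gcd_eq_one]
    by_contra hg
    obtain ⟨p, hp, hpg⟩ := Nat.exists_prime_and_dvd hg
    have hpb : p ∣ b := hpg.trans (Nat.gcd_dvd_left _ _)
    have hpm : p ∣ m := hpg.trans (Nat.gcd_dvd_right _ _)
    obtain ⟨-, -, -, -, h4, -, h6⟩ := hSm t0 ht0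
    have hpn : p ∣ t0 * m - 2 := (hpb.trans (dvd_pow_self b two_ne_zero)).trans h4
    have hptm : p ∣ t0 * m := hpm.mul_left t0
    have hp2 : p ∣ 2 := by
      have h5 : p ∣ t0 * m - (t0 * m - 2) := Nat.dvd_sub hptm hpn
      have h7 : t0 * m - (t0 * m - 2) = 2 := by omega
      rwa [h7] at h5
    have h7 := hb3 p hp hpb
    have h8 : p = 2 := (Nat.prime_dvd_prime_iff_eq hp Nat.prime_two).1 hp2
    rw [h8] at h7
    exact absurd h7 (by norm_num)
  have hb2pos : 0 < b ^ 2 := pow_pos hb 2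
  set a : ℕ := t0 % b ^ 2 with ha
  have hSa : ∀ t ∈ S, t % b ^ 2 = a := by
    intro t ht
    obtain ⟨-, -, -, -, h4, -, h6⟩ := hSm t0 ht0
    obtain ⟨-, -, -, -, g4, -, g6⟩ := hSm t ht
    rw [ha]
    rcases le_total t t0 with h | h
    · have h5 : t * m ≤ t0 * m := Nat.mul_le_mul_right m h
      have h7 : b ^ 2 ∣ (t0 * m - 2) - (t * m - 2) := Nat.dvd_sub h4 g4
      have h8 : (t0 * m - 2) - (t * m - 2) = (t0 - t) * m := by
        rw [Nat.sub_mul]
        omega
      rw [h8] at h7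
      have h9 : b ^ 2 ∣ t0 - t := (Nat.Coprime.pow_left 2 hcop).dvd_of_dvd_mul_right h7
      exact (Nat.modEq_iff_dvd' h).2 h9
    · have h5 : t0 * m ≤ t * m := Nat.mul_le_mul_right m h
      have h7 : b ^ 2 ∣ (t * m - 2) - (t0 * m - 2) := Nat.dvd_sub g4 h4
      have h8 : (t * m - 2) - (t0 * m - 2) = (t - t0) * m := by
        rw [Nat.sub_mul]
        omega
      rw [h8] at h7
      have h9 : b ^ 2 ∣ t - t0 := (Nat.Coprime.pow_left 2 hcop).dvd_of_dvd_mul_right h7
      exact ((Nat.modEq_iff_dvd' h).2 h9).symm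
  obtain ⟨c, hc⟩ : ∃ c : ℤ, (a : ℤ) * m - 2 = (b : ℤ) ^ 2 * c := by
    obtain ⟨-, -, -, -, ⟨k, hk⟩, -, h6⟩ := hSm t0 ht0
    have h1 : (t0 : ℤ) * m - 2 = (b : ℤ) ^ 2 * k := by
      have : t0 * m = b ^ 2 * k + 2 := by omega
      have h2 : (t0 : ℤ) * m = (b : ℤ) ^ 2 * k + 2 := by exact_mod_cast this
      linarith
    have h2 : (t0 : ℤ) = a + (b : ℤ) ^ 2 * ((t0 / b ^ 2 : ℕ) : ℤ) := by
      have := Nat.mod_add_div t0 (b ^ 2)
      rw [← ha] at this
      have h3 : ((a + b ^ 2 * (t0 / b ^ 2) : ℕ) : ℤ) = t0 := by exact_mod_cast this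
      push_cast at h3
      push_cast
      linarith
    refine ⟨k - m * ((t0 / b ^ 2 : ℕ) : ℤ), ?_⟩
    rw [h2] at h1
    linear_combination h1
  -- the classes
  set Om : ℕ → Finset ℕ := fun p => (range p).filter (fun r =>
    (p : ℤ) ∣ (a : ℤ) + ((b ^ 2 : ℕ) : ℤ) * r ∨ (p % 4 = 3 ∧ (p : ℤ) ∣ c + (m : ℤ) * r)) with hOm
  set P : Finset ℕ := ((Icc 1 z).filter Nat.Prime).filter
    (fun p => ¬ (p % 4 = 3 ∧ p ∣ b * m)) with hP
  have hPm : ∀ p ∈ P, p.Prime ∧ p ≤ z ∧ ¬ (p % 4 = 3 ∧ p ∣ b * m) := by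
    intro p hp
    rw [hP, mem_filter, mem_filter, mem_Icc] at hp
    exact ⟨hp.1.2, hp.1.1.2, hp.2⟩
  have hbp : ∀ p ∈ P, ¬ p ∣ b ^ 2 := by
    intro p hp hpb
    obtain ⟨h1, -, h3⟩ := hPm p hp
    have h4 : p ∣ b := h1.dvd_of_dvd_pow hpb
    exact h3 ⟨hb3 p h1 h4, h4.mul_right m⟩
  have hcard3 : ∀ p ∈ P, p % 4 = 3 → (Om p).card = 2 := by
    intro p hp h43
    obtain ⟨h1, h2, h3⟩ := hPm p hp
    have hmp : ¬ p ∣ m := fun h => h3 ⟨h43, h.mul_left b⟩
    obtain ⟨r1, hr1, hr1'⟩ := lin_sol p h1 (a : ℤ) (b ^ 2) (hbp p hp)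
    obtain ⟨r2, hr2, hr2'⟩ := lin_sol p h1 c m hmp
    have hne : r1 ≠ r2 := by
      intro h
      have e1 := (hr1' r1 hr1).2 rfl
      have e2 := (hr2' r1 hr1).2 h
      have e3 : (p : ℤ) ∣ 2 := by
        have e4 : (2 : ℤ) = ((a : ℤ) + ((b ^ 2 : ℕ) : ℤ) * r1) * m -
            (b : ℤ) ^ 2 * (c + m * r1) := by
          push_cast
          linear_combination -hc
        rw [e4]
        exact dvd_sub (e1.mul_right _) (e2.mul_left _)
      have e5 : p ∣ 2 := by exact_mod_cast e3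
      have h8 : p = 2 := (Nat.prime_dvd_prime_iff_eq h1 Nat.prime_two).1 e5
      rw [h8] at h43
      exact absurd h43 (by norm_num)
    have hEq : Om p = {r1, r2} := by
      ext r
      rw [hOm]
      simp only [mem_filter, mem_range, mem_insert, mem_singleton]
      constructor
      · rintro ⟨hr, h | ⟨-, h⟩⟩
        · exact Or.inl ((hr1' r hr).1 h)
        · exact Or.inr ((hr2' r hr).1 h)
      · rintro (h | h)
        · rw [h]
          exact ⟨hr1, Or.inl ((hr1' r1 hr1).2 rfl)⟩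
        · rw [h]
          exact ⟨hr2, Or.inr ⟨h43, (hr2' r2 hr2).2 rfl⟩⟩
    rw [hEq, card_pair hne]
  have hcard1 : ∀ p ∈ P, p % 4 ≠ 3 → (Om p).card = 1 := by
    intro p hp h43
    obtain ⟨h1, h2, h3⟩ := hPm p hp
    obtain ⟨r1, hr1, hr1'⟩ := lin_sol p h1 (a : ℤ) (b ^ 2) (hbp p hp)
    have hEq : Om p = {r1} := by
      ext r
      rw [hOm]
      simp only [mem_filter, mem_range, mem_singleton]
      constructor
      · rintro ⟨hr, h | ⟨h, -⟩⟩
        · exact (hr1' r hr).1 h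
        · exact absurd h h43
      · intro h
        rw [h]
        exact ⟨hr1, Or.inl ((hr1' r1 hr1).2 rfl)⟩
    rw [hEq, card_singleton]
  have hcond : ∀ p ∈ P, p.Prime ∧ p ≤ z ∧ Om p ⊆ range p ∧ 1 ≤ (Om p).card ∧
      (Om p).card ≤ 2 ∧ (Om p).card < p := by
    intro p hp
    obtain ⟨h1, h2, h3⟩ := hPm p hp
    refine ⟨h1, h2, filter_subset _ _, ?_⟩
    by_cases h43 : p % 4 = 3
    · rw [hcard3 p hp h43]
      refine ⟨by norm_num, le_rfl, ?_⟩
      have := h1.two_le
      omega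
    · rw [hcard1 p hp h43]
      exact ⟨le_rfl, by norm_num, h1.one_lt⟩
  set U : ℕ := X / b ^ 2 + 1 with hU
  have hle : S.card ≤ ((range U).filter (fun u => ∀ p ∈ P, u % p ∉ Om p)).card := by
    apply Finset.card_le_card_of_injOn (fun t => t / b ^ 2)
    · intro t ht
      obtain ⟨h1, h2, h3, h4, h5, h6, h7⟩ := hSm t ht
      simp only [coe_filter, mem_range, Set.mem_ofPred_eq]
      refine ⟨?_, ?_⟩
      · have := Nat.div_le_div_right (c := b ^ 2) h2
        omega
      · intro p hp hmem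
        obtain ⟨hpp, hpz, -⟩ := hPm p hp
        set u : ℕ := t / b ^ 2 with hu
        have htu : (t : ℤ) = a + (b : ℤ) ^ 2 * u := by
          have := Nat.mod_add_div t (b ^ 2)
          rw [hSa t ht] at this
          have h3 : ((a + b ^ 2 * (t / b ^ 2) : ℕ) : ℤ) = t := by exact_mod_cast this
          push_cast at h3
          rw [hu]
          push_cast
          linarith
        have hup : (p : ℤ) ∣ (u : ℤ) - ((u % p : ℕ) : ℤ) := by
          push_cast
          exact Int.dvd_self_sub_emod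
        rw [hOm] at hmem
        simp only [mem_filter, mem_range] at hmem
        rcases hmem.2 with h | ⟨h43, h⟩
        · have e1 : (p : ℤ) ∣ (t : ℤ) := by
            have e2 : (t : ℤ) = ((a : ℤ) + ((b ^ 2 : ℕ) : ℤ) * ((u % p : ℕ) : ℤ)) +
                (b : ℤ) ^ 2 * ((u : ℤ) - ((u % p : ℕ) : ℤ)) := by
              rw [htu]
              push_cast
              ring
            rw [e2]
            exact dvd_add h (hup.mul_left _)
          have e3 : p ∣ t := by exact_mod_cast e1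
          have := h4 p hpp e3
          omega
        · have e1 : (p : ℤ) ∣ c + m * u := by
            have e2 : c + (m : ℤ) * u = (c + (m : ℤ) * ((u % p : ℕ) : ℤ)) +
                (m : ℤ) * ((u : ℤ) - ((u % p : ℕ) : ℤ)) := by ring
            rw [e2]
            exact dvd_add h (hup.mul_left _)
          obtain ⟨k, hk⟩ := h5
          have e3 : c + (m : ℤ) * u = k := by
            have e4 : (t : ℤ) * m - 2 = (b : ℤ) ^ 2 * k := by
              have : t * m = b ^ 2 * k + 2 := by omega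
              have h2 : (t : ℤ) * m = (b : ℤ) ^ 2 * k + 2 := by exact_mod_cast this
              linarith
            have e5 : (b : ℤ) ^ 2 * (c + m * u) = (b : ℤ) ^ 2 * k := by
              rw [← e4, htu]
              linear_combination -hc
            have hbz : (b : ℤ) ^ 2 ≠ 0 := by positivity
            exact mul_left_cancel₀ hbz e5
          rw [e3] at e1
          have e6 : p ∣ k := by exact_mod_cast e1
          rw [hk, Nat.mul_div_cancel_left _ hb2pos] at h6
          exact h6 p hpp h43 hpp.pos hpz e6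
    · intro s hs t ht hst
      simp only at hst
      have e1 := Nat.mod_add_div s (b ^ 2)
      have e2 := Nat.mod_add_div t (b ^ 2)
      rw [hSa s hs] at e1
      rw [hSa t ht] at e2
      rw [← e1, ← e2, hst]
  have hsiv := hA z U P Om hz hcond
  have hprod : ∏ p ∈ P, (1 - ((Om p).card : ℝ) / p) ≤
      C * hp (b * m) / (Real.log z * √(Real.log z)) := by
    have h1 := hCW z (b * m) hz (Nat.mul_pos hb hm)
    refine le_trans (le_of_eq ?_) h1
    rw [hP, Finset.prod_filter]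
    apply Finset.prod_congr rfl
    intro p hp
    by_cases h43 : p % 4 = 3
    · by_cases hd : p ∣ b * m
      · simp [h43, hd]
      · have hpP : p ∈ P := by
          rw [hP, mem_filter]
          exact ⟨hp, fun h => hd h.2⟩
        simp only [h43, hd, and_false, not_false_eq_true, if_true, if_false]
        rw [hcard3 p hpP h43]
        norm_num
    · have hpP : p ∈ P := by
        rw [hP, mem_filter]
        exact ⟨hp, fun h => h43 h.1⟩
      simp only [h43, false_and, not_false_eq_true, if_true, if_false]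
      rw [hcard1 p hpP h43]
      norm_num
  have hLL : 0 < Real.log z * √(Real.log z) := by positivity
  have hUr : (U : ℝ) ≤ (X : ℝ) / (b : ℝ) ^ 2 + 1 := by
    rw [hU]
    push_cast
    have h3 : ((X / b ^ 2 : ℕ) : ℝ) ≤ (X : ℝ) / ((b ^ 2 : ℕ) : ℝ) := Nat.cast_div_le
    push_cast at h3
    linarith
  calc (S.card : ℝ) ≤ (((range U).filter (fun u => ∀ p ∈ P, u % p ∉ Om p)).card : ℝ) := by
        exact_mod_cast hle
    _ ≤ 2 * U * ∏ p ∈ P, (1 - ((Om p).card : ℝ) / p) + (z : ℝ) ^ A := hsiv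
    _ ≤ 2 * U * (C * hp (b * m) / (Real.log z * √(Real.log z))) + (z : ℝ) ^ A := by gcongr
    _ ≤ 2 * ((X : ℝ) / (b : ℝ) ^ 2 + 1) * (C * (hp b * hp m) / (Real.log z * √(Real.log z))) +
          (z : ℝ) ^ A := by
        have h1 := hHP.2.1 b m hb hm
        have h2 := pos_hp hHP (b * m) (Nat.mul_pos hb hm)
        gcongr
    _ = 2 * C * ((X : ℝ) / (b : ℝ) ^ 2 + 1) * (hp b * hp m) / (Real.log z * √(Real.log z)) +
          (z : ℝ) ^ A := by ring

end Pool.Agent.H37.LCL
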